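import Pool.Agent.helper62.HF.SpecV
import Pool.Agent.helper13.MS.SS1

/-!
# MP_07c750 (project HALF), row hf:BWM
-/

set_option autoImplicit false

open scoped MatrixGroups ContDiff Topology UpperHalfPlane ComplexConjugate
open UpperHalfPlane MeasureTheory Filter Set

namespace Pool.Agent.HV

open Pool.Agent.RS Pool.Agent.MS
open Pool.Agent.EN (XG MG mkX mkM fl pr)

theorem BWM_meas (Γ : Subgroup SL(2, ℝ)) (hΓ : QU.SurfaceGroup Γ) (A : Finset SL(2, ℝ))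
    (a b c : ℝ) :
    MeasurableSet {g : SL(2, ℝ) | ∃ y ∈ A, ∃ γ : Γ, bq a b c (y⁻¹ * (γ : SL(2, ℝ)) * g)} := by
  have hc := SS1_count Γ hΓ
  have he : {g : SL(2, ℝ) | ∃ y ∈ A, ∃ γ : Γ, bq a b c (y⁻¹ * (γ : SL(2, ℝ)) * g)} =
      ⋃ y ∈ A, {g : SL(2, ℝ) | ∃ γ : Γ, bq a b c (y⁻¹ * (γ : SL(2, ℝ)) * (1 * g))} := by
    ext g
    simp only [mem_ofPred_eq, mem_iUnion, one_mul, exists_prop]
  rw [he]
  exact Finset.measurableSet_biUnion A fun y _ => SS1_sheet Γ hc a b c y 1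

theorem BWM_inv (Γ : Subgroup SL(2, ℝ)) (A : Finset SL(2, ℝ)) (a b c : ℝ) (γ : Γ)
    (g : SL(2, ℝ)) :
    (∃ y ∈ A, ∃ γ' : Γ, bq a b c (y⁻¹ * (γ' : SL(2, ℝ)) * ((γ : SL(2, ℝ)) * g))) ↔
      ∃ y ∈ A, ∃ γ' : Γ, bq a b c (y⁻¹ * (γ' : SL(2, ℝ)) * g) := by
  constructor
  · rintro ⟨y, hy, γ', h⟩
    refine ⟨y, hy, γ' * γ, ?_⟩
    have e : y⁻¹ * ((γ' * γ : Γ) : SL(2, ℝ)) * g = y⁻¹ * (γ' : SL(2, ℝ)) * ((γ : SL(2, ℝ)) * g) := by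
      rw [Subgroup.coe_mul]
      group
    rw [e]
    exact h
  · rintro ⟨y, hy, γ', h⟩
    refine ⟨y, hy, γ' * γ⁻¹, ?_⟩
    have e : y⁻¹ * ((γ' * γ⁻¹ : Γ) : SL(2, ℝ)) * ((γ : SL(2, ℝ)) * g) =
        y⁻¹ * (γ' : SL(2, ℝ)) * g := by
      rw [Subgroup.coe_mul, Subgroup.coe_inv]
      group
    rw [e]
    exact h

theorem BWM_proof : BWM_stmt := fun Γ A b v hΓ =>
  ⟨BWM_meas Γ hΓ A b (b * v) b, BWM_meas Γ hΓ A b b (b * v),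
    fun γ g => BWM_inv Γ A b (b * v) b γ g, fun γ g => BWM_inv Γ A b b (b * v) γ g⟩

end Pool.Agent.HV
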