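import Pool.Agent.helper84.HF.SpecH

/-!
# MP_07c750 (project HALF), row hf:PNQ
-/

set_option autoImplicit false

open Finset

namespace Pool.Agent.HF

open Classical in
theorem PNQ_count (R : Finset ℕ) (k : ℕ) (P : ℕ → Prop) (l : Fin (k + 1)) :
    (((Rk (k + 1) R).filter (fun u => P (u l))).card : ℝ) * R.card =
      (R.filter P).card * (Rk (k + 1) R).card := by
  have h1 : (Rk (k + 1) R).filter (fun u => P (u l)) =
      Fintype.piFinset (fun i => if i = l then R.filter P else R) := by
    ext u
    simp only [Rk, Finset.mem_filter, Fintype.mem_piFinset]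
    constructor
    · rintro ⟨h, hl⟩ i
      split_ifs with hi
      · subst hi
        exact Finset.mem_filter.2 ⟨h _, hl⟩
      · exact h i
    · intro h
      refine ⟨fun i => ?_, ?_⟩
      · have := h i
        split_ifs at this with hi
        · exact (Finset.mem_filter.1 this).1
        · exact this
      · have := h l
        rw [if_pos rfl] at this
        exact (Finset.mem_filter.1 this).2
  rw [h1, Fintype.card_piFinset, Rk, Fintype.card_piFinset]
  have h2 : ∏ i : Fin (k + 1), (if i = l then R.filter P else R).card =
      (R.filter P).card * R.card ^ k := by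
    rw [← Finset.mul_prod_erase Finset.univ _ (Finset.mem_univ l), if_pos rfl]
    congr 1
    rw [Finset.prod_congr rfl (g := fun _ => R.card)]
    · simp
    · intro i hi
      rw [if_neg (Finset.ne_of_mem_erase hi)]
  rw [h2]
  simp
  ring

theorem PNQ_proof : PNQ_stmt := by
  classical
  intro R N k i hR hk hq
  have hRc : (0 : ℝ) < R.card := by exact_mod_cast hR.card_pos
  have hX : (Rk (k + 1) R).Nonempty := Fintype.piFinset_nonempty.2 fun _ => hR
  have hXc : (0 : ℝ) < (Rk (k + 1) R).card := by exact_mod_cast hX.card_pos
  have hk' : (0 : ℝ) < k := by exact_mod_cast hk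
  set X := Rk (k + 1) R with hXd
  set c : (Fin (k + 1) → ℕ) → ℕ := fun u =>
    (Finset.univ.filter (fun l : Fin (k + 1) => l ≠ 0 ∧ nic R N i (px N i (u l)))).card with hc
  -- the total number
  have h1 : (∑ u ∈ X, (c u : ℝ)) = k * (qq R N i * X.card) := by
    have h2 : ∀ u, (c u : ℝ) = ∑ l ∈ (Finset.univ.erase (0 : Fin (k + 1))),
        if nic R N i (px N i (u l)) then (1 : ℝ) else 0 := by
      intro u
      rw [hc]
      simp only
      rw [Finset.card_filter]
      push_cast
      rw [← Finset.add_sum_erase Finset.univ _ (Finset.mem_univ (0 : Fin (k + 1)))]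
      rw [if_neg (by simp), zero_add]
      refine Finset.sum_congr rfl fun l hl => ?_
      have := Finset.ne_of_mem_erase hl
      simp [this]
    simp_rw [h2]
    rw [Finset.sum_comm]
    have h3 : ∀ l ∈ (Finset.univ.erase (0 : Fin (k + 1))),
        (∑ u ∈ X, if nic R N i (px N i (u l)) then (1 : ℝ) else 0) = qq R N i * X.card := by
      intro l _
      rw [← Finset.sum_filter, Finset.sum_const, nsmul_eq_mul, mul_one]
      have h4 := PNQ_count R k (fun u => nic R N i (px N i u)) l
      unfold qq
      rw [div_mul_eq_mul_div, eq_div_iff hRc.ne']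
      exact h4
    rw [Finset.sum_congr rfl h3, Finset.sum_const, Finset.card_erase_of_mem (Finset.mem_univ _)]
    simp
  -- the upper bound
  have h5 : ∀ u ∈ X, (c u : ℝ) ≤ (if (k : ℝ) / 64 ≤ (c u : ℝ) then (k : ℝ) else 0) + k / 64 := by
    intro u _
    split_ifs with h
    · have h6 : c u ≤ k := by
        rw [hc]
        simp only
        refine (Finset.card_le_card (t := Finset.univ.erase (0 : Fin (k + 1))) ?_).trans ?_
        · intro l hl
          exact Finset.mem_erase.2 ⟨(Finset.mem_filter.1 hl).2.1, Finset.mem_univ _⟩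
        · rw [Finset.card_erase_of_mem (Finset.mem_univ _)]
          simp
      have h7 : (c u : ℝ) ≤ k := by exact_mod_cast h6
      have h8 : (0 : ℝ) ≤ k / 64 := by positivity
      linarith
    · push Not at h
      linarith
  have h9 := Finset.sum_le_sum h5
  rw [h1, Finset.sum_add_distrib, ← Finset.sum_filter, Finset.sum_const, Finset.sum_const,
    nsmul_eq_mul, nsmul_eq_mul] at h9
  have h10 : PN R N k i * X.card = ((X.filter fun u => (k : ℝ) / 64 ≤ (c u : ℝ)).card : ℝ) := by
    unfold PN
    rw [div_mul_cancel₀ _ hXc.ne']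
  rw [← h10] at h9
  have h11 : k * (qq R N i * X.card) ≤ k * (PN R N k i * X.card + X.card / 64) := by
    refine h9.trans (le_of_eq ?_)
    ring
  have h12 := le_of_mul_le_mul_left h11 hk'
  have h13 : qq R N i * X.card ≤ (PN R N k i + 1 / 64) * X.card := by
    refine h12.trans (le_of_eq ?_)
    ring
  have h14 := le_of_mul_le_mul_right h13 hXc
  linarith

end Pool.Agent.HF
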