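import Pool.Agent.helper84.HF.SpecH

/-!
# MP_07c750 (project HALF), row hf:CHX
-/

set_option autoImplicit false

open Finset

namespace Pool.Agent.HF

theorem CHX_cos (x : ℝ) (hx : |x| ≤ 1) : Real.cos x ≤ 1 - 11 / 24 * x ^ 2 := by
  have h1 : Real.cos x = 1 - 2 * Real.sin (|x| / 2) ^ 2 := by
    rw [← Real.cos_abs x]
    have h := Real.cos_two_mul' (|x| / 2)
    have h2 := Real.sin_sq_add_cos_sq (|x| / 2)
    rw [show 2 * (|x| / 2) = |x| by ring] at h
    rw [h]
    linarith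
  have h0 := abs_nonneg x
  have h2 := Real.sin_ge_sub_cube (x := |x| / 2) (by positivity)
  set y := |x| / 2 with hy
  have hy0 : 0 ≤ y := by positivity
  have hy1 : y ≤ 1 / 2 := by rw [hy]; linarith
  have h3 : 0 ≤ y - y ^ 3 / 6 := by nlinarith [mul_nonneg hy0 hy0, mul_nonneg (mul_nonneg hy0 hy0) hy0]
  have h4 : (y - y ^ 3 / 6) ^ 2 ≤ Real.sin y ^ 2 := by nlinarith
  have h5 : x ^ 2 = 4 * y ^ 2 := by
    rw [hy, ← sq_abs x]
    ring
  rw [h1, h5]
  have h6 : 0 ≤ y ^ 2 := sq_nonneg y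
  have h7 : y ^ 2 ≤ 1 / 4 := by nlinarith
  nlinarith [mul_nonneg h6 h6, mul_nonneg (mul_nonneg h6 h6) h6]

/-- one term -/
noncomputable def CHX_e (M : ℕ) (l : ℤ) (u : ℝ) : ℂ :=
  Complex.exp (((2 * Real.pi * l / M * u : ℝ) : ℂ) * Complex.I)

theorem CHX_e_eq (M : ℕ) (l : ℤ) (u : ℕ) :
    Complex.exp (2 * Real.pi * Complex.I * (l : ℂ) * (u : ℂ) / (M : ℂ)) = CHX_e M l u := by
  unfold CHX_e
  congr 1
  push_cast
  ring

theorem CHX_e_norm (M : ℕ) (l : ℤ) (u : ℝ) : ‖CHX_e M l u‖ = 1 :=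
  Complex.norm_exp_ofReal_mul_I _

theorem CHX_e_add (M : ℕ) (l : ℤ) (u v : ℝ) : CHX_e M l (u + v) = CHX_e M l u * CHX_e M l v := by
  unfold CHX_e
  rw [← Complex.exp_add]
  congr 1
  push_cast
  ring

theorem CHX_e_sum (M : ℕ) (l : ℤ) {ι : Type} (s : Finset ι) (u : ι → ℝ) :
    CHX_e M l (∑ i ∈ s, u i) = ∏ i ∈ s, CHX_e M l (u i) := by
  unfold CHX_e
  rw [← Complex.exp_sum]
  congr 1
  push_cast
  rw [Finset.mul_sum, Finset.sum_mul]

theorem CHX_ch {α : Type} (X : Finset α) (f : α → ℕ) (M : ℕ) (l : ℤ) :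
    ch X f M l = (∑ x ∈ X, CHX_e M l (f x)) / X.card := by
  unfold ch
  congr 1
  exact Finset.sum_congr rfl fun x _ => CHX_e_eq M l (f x)

theorem CHX_proof : CHX_stmt := by
  refine ⟨?_, ?_, ?_⟩
  · intro k X c M l hM hX
    have h1 : ∀ u : Fin k → ℕ, CHX_e M l ((c + sm u : ℕ) : ℝ) =
        CHX_e M l c * ∏ i, CHX_e M l (u i : ℝ) := by
      intro u
      have h2 : ((c + sm u : ℕ) : ℝ) = (c : ℝ) + ∑ i, (u i : ℝ) := by
        unfold sm
        push_cast
        ring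
      rw [h2, CHX_e_add, CHX_e_sum]
    have h3 : ch (Fintype.piFinset X) (fun u => c + sm u) M l =
        CHX_e M l c * ∏ i, ch (X i) id M l := by
      rw [CHX_ch]
      simp only [h1]
      rw [← Finset.mul_sum, ← Finset.prod_univ_sum (fun i => X i) (fun _ u => CHX_e M l (u : ℝ)),
        Fintype.card_piFinset]
      push_cast
      rw [mul_div_assoc, ← Finset.prod_div_distrib]
      congr 1
      exact Finset.prod_congr rfl fun i _ => (CHX_ch (X i) id M l).symm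
    rw [h3, norm_mul, CHX_e_norm, one_mul, norm_prod]
  · intro α X f M l hX
    have hc : (0 : ℝ) < X.card := by exact_mod_cast hX.card_pos
    rw [CHX_ch, norm_div, Complex.norm_natCast, div_le_one hc]
    refine (norm_sum_le _ _).trans (le_of_eq ?_)
    simp [CHX_e_norm]
  · intro X M l B hX hM hB hθ
    have hc : (0 : ℝ) < X.card := by exact_mod_cast hX.card_pos
    have hMp : (0 : ℝ) < M := by exact_mod_cast hM
    set θ : ℝ := 2 * Real.pi * l / M with hθd
    -- the square of the norm of the sum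
    have h1 : ‖∑ u ∈ X, CHX_e M l (u : ℝ)‖ ^ 2 = ∑ u ∈ X, ∑ v ∈ X, Real.cos (θ * ((u : ℝ) - v)) := by
      have h2 : ∀ u : ℝ, (CHX_e M l u).re = Real.cos (θ * u) ∧ (CHX_e M l u).im = Real.sin (θ * u) := by
        intro u
        unfold CHX_e
        exact ⟨Complex.exp_ofReal_mul_I_re _, Complex.exp_ofReal_mul_I_im _⟩
      rw [← Complex.normSq_eq_norm_sq, Complex.normSq_apply, Complex.re_sum, Complex.im_sum,
        Finset.sum_mul_sum, Finset.sum_mul_sum, ← Finset.sum_add_distrib]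
      refine Finset.sum_congr rfl fun u _ => ?_
      rw [← Finset.sum_add_distrib]
      refine Finset.sum_congr rfl fun v _ => ?_
      rw [(h2 u).1, (h2 v).1, (h2 u).2, (h2 v).2, mul_sub, Real.cos_sub]
    have hle : ∀ u ∈ X, ∀ v ∈ X, |θ * ((u : ℝ) - v)| ≤ 1 := by
      intro u hu v hv
      rw [abs_mul]
      refine le_trans ?_ hθ
      have h3 : |θ| = 2 * Real.pi * |(l : ℝ)| / M := by
        rw [hθd, abs_div, abs_mul, abs_of_pos hMp, abs_of_pos (by positivity : (0 : ℝ) < 2 * Real.pi)]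
      rw [h3]
      exact mul_le_mul_of_nonneg_left (hB u hu v hv) (by positivity)
    have h4 : ‖∑ u ∈ X, CHX_e M l (u : ℝ)‖ ^ 2 ≤
        (X.card : ℝ) ^ 2 - 11 / 24 * θ ^ 2 * ∑ u ∈ X, ∑ v ∈ X, ((u : ℝ) - v) ^ 2 := by
      rw [h1]
      have h5 : (X.card : ℝ) ^ 2 = ∑ u ∈ X, ∑ v ∈ X, (1 : ℝ) := by
        simp
        ring
      rw [h5, Finset.mul_sum, ← Finset.sum_sub_distrib]
      refine Finset.sum_le_sum fun u hu => ?_
      rw [Finset.mul_sum, ← Finset.sum_sub_distrib]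
      refine Finset.sum_le_sum fun v hv => ?_
      have := CHX_cos _ (hle u hu v hv)
      nlinarith
    have h6 : ‖ch X id M l‖ ^ 2 ≤ 1 - 11 / 12 * θ ^ 2 * vp X := by
      rw [CHX_ch, norm_div, Complex.norm_natCast, div_pow]
      simp only [id]
      rw [div_le_iff₀ (by positivity)]
      refine h4.trans (le_of_eq ?_)
      unfold vp
      field_simp
      ring
    refine h6.trans ?_
    have h7 := Real.add_one_le_exp (-(11 / 12 * θ ^ 2 * vp X))
    linarith

end Pool.Agent.HF
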